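import Pool.Agent.H44D.Stmts2

set_option autoImplicit false

/-! Equidistribution lemma: averages of the first laws of a lazy random walk, maximum principle. -/

namespace H44D

open Finset

section Walk

variable {G K : Type} [Group G] [Fintype K]

/-- expectation of `ψ` under the `j`-th law of the walk with uniform steps `s k` -/
noncomputable def SW (s : K → G) (j : ℕ) (ψ : G → ℝ) : ℝ :=
  ∑ ω : Fin j → K, (1 / (Fintype.card K : ℝ)) ^ j * ψ ((List.ofFn fun i => s (ω i)).prod)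

theorem SW_zero (s : K → G) (ψ : G → ℝ) : SW s 0 ψ = ψ 1 := by
  simp [SW]

theorem SW_succ (s : K → G) (j : ℕ) (ψ : G → ℝ) :
    SW s (j + 1) ψ = (1 / (Fintype.card K : ℝ)) * ∑ k, SW s j (fun g => ψ (s k * g)) := by
  unfold SW
  rw [← (Fin.consEquiv (fun _ : Fin (j + 1) => K)).sum_comp, Fintype.sum_prod_type, Finset.mul_sum]
  refine Finset.sum_congr rfl fun k _ => ?_
  rw [Finset.mul_sum]
  refine Finset.sum_congr rfl fun ω _ => ?_
  have h1 : (List.ofFn fun i => s ((Fin.consEquiv (fun _ : Fin (j + 1) => K)) (k, ω) i)).prod =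
      s k * (List.ofFn fun i => s (ω i)).prod := by
    rw [List.ofFn_succ, List.prod_cons]
    rfl
  rw [h1, pow_succ]
  ring

theorem SW_nonneg (s : K → G) (j : ℕ) (ψ : G → ℝ) (h : ∀ g, 0 ≤ ψ g) : 0 ≤ SW s j ψ := by
  unfold SW
  refine Finset.sum_nonneg fun ω _ => ?_
  have := h ((List.ofFn fun i => s (ω i)).prod)
  positivity

theorem SW_one [Nonempty K] (s : K → G) (j : ℕ) : SW s j (fun _ => 1) = 1 := by
  induction j with
  | zero => rw [SW_zero]
  | succ j ih =>
    rw [SW_succ]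
    have h1 : ∑ k : K, SW s j (fun _ => (1 : ℝ)) = (Fintype.card K : ℝ) := by
      rw [ih]; simp
    have h2 : (Fintype.card K : ℝ) ≠ 0 := by
      have : 0 < Fintype.card K := Fintype.card_pos
      positivity
    show (1 / (Fintype.card K : ℝ)) * ∑ k : K, SW s j (fun _ => (1 : ℝ)) = 1
    rw [h1]
    field_simp

theorem SW_avg (s : K → G) (J : ℕ) (ψ : G → ℝ) (h0 : ∀ g, 0 ≤ ψ g) (h1 : ∀ g, ψ g ≤ 1) :
    ∑ j ∈ range J, SW s j ψ ≤
      (1 / (Fintype.card K : ℝ)) * ∑ k, ∑ j ∈ range J, SW s j (fun g => ψ (s k * g)) + 1 := by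
  have e1 : (1 / (Fintype.card K : ℝ)) * ∑ k, ∑ j ∈ range J, SW s j (fun g => ψ (s k * g)) =
      ∑ j ∈ range J, SW s (j + 1) ψ := by
    rw [Finset.sum_comm, Finset.mul_sum]
    refine Finset.sum_congr rfl fun j _ => ?_
    rw [SW_succ]
  rw [e1]
  have e2 := Finset.sum_range_succ (fun j => SW s j ψ) J
  have e3 := Finset.sum_range_succ' (fun j => SW s j ψ) J
  have e4 := SW_nonneg s J ψ h0
  have e5 : SW s 0 ψ ≤ 1 := by rw [SW_zero]; exact h1 1
  linarith

end Walk

open Classical in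
theorem pr_eq_mul {ι : Type} [Fintype ι] (w : ι → ℝ) (P : ι → Prop) :
    pr w P = ∑ i, w i * (if P i then 1 else 0) := by
  unfold pr
  refine Finset.sum_congr rfl fun i _ => ?_
  split_ifs <;> simp

/-- the measure -/
theorem walk_measure {G K : Type} [Group G] [Fintype K] [Nonempty K] (s : K → G)
    (Γ : Subgroup G) (hs : ∀ k, s k ∈ Γ) (J : ℕ) (hJ : 0 < J) :
    ∃ (ι : Type) (_ : Fintype ι) (w : ι → ℝ) (r : ι → G), FinProb w ∧ (∀ i, r i ∈ Γ) ∧
      ∀ φ : G → Prop, pr w (fun i => φ (r i)) ≤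
        (1 / (Fintype.card K : ℝ)) * ∑ k, pr w (fun i => φ (s k * r i)) + 1 / J := by
  classical
  have hJ' : (0 : ℝ) < J := by exact_mod_cast hJ
  let ι : Type := Σ j : Fin J, (Fin j → K)
  let w : ι → ℝ := fun i => (1 / (J : ℝ)) * (1 / (Fintype.card K : ℝ)) ^ (i.1 : ℕ)
  let r : ι → G := fun i => (List.ofFn fun l => s (i.2 l)).prod
  have hsum : ∀ ψ : G → ℝ, ∑ i : ι, w i * ψ (r i) = (1 / (J : ℝ)) * ∑ j ∈ range J, SW s j ψ := by
    intro ψ
    rw [Fintype.sum_sigma, ← Fin.sum_univ_eq_sum_range (fun j => SW s j ψ) J, Finset.mul_sum]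
    refine Finset.sum_congr rfl fun j _ => ?_
    unfold SW
    rw [Finset.mul_sum]
    refine Finset.sum_congr rfl fun ω _ => ?_
    simp only [w, r]
    ring
  refine ⟨ι, inferInstance, w, r, ⟨fun i => by positivity, ?_⟩, ?_, ?_⟩
  · have h1 := hsum (fun _ => 1)
    simp only [mul_one] at h1
    rw [h1]
    have h2 : ∑ j ∈ range J, SW s j (fun _ => (1 : ℝ)) = J := by
      rw [Finset.sum_congr rfl (fun j _ => SW_one s j)]
      simp
    rw [h2]
    field_simp
  · intro i
    refine Subgroup.list_prod_mem _ ?_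
    intro x hx
    rw [List.mem_ofFn] at hx
    obtain ⟨l, rfl⟩ := hx
    exact hs _
  · intro φ
    have h1 : ∀ ρ : G → Prop, pr w (fun i => ρ (r i)) =
        (1 / (J : ℝ)) * ∑ j ∈ range J, SW s j (fun g => if ρ g then 1 else 0) := by
      intro ρ
      rw [pr_eq_mul, ← hsum]
    have h2 : ∀ k, pr w (fun i => φ (s k * r i)) =
        (1 / (J : ℝ)) * ∑ j ∈ range J, SW s j (fun g => if φ (s k * g) then 1 else 0) :=
      fun k => h1 (fun g => φ (s k * g))
    rw [h1 φ, Finset.sum_congr rfl (fun k _ => h2 k), ← Finset.mul_sum]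
    have h3 := SW_avg s J (fun g => if φ g then (1 : ℝ) else 0)
      (fun g => by split_ifs <;> norm_num) (fun g => by split_ifs <;> norm_num)
    have h4 := mul_le_mul_of_nonneg_left h3 (by positivity : (0 : ℝ) ≤ 1 / J)
    refine h4.trans (le_of_eq ?_)
    ring

section Basics

variable {G ι : Type} [Group G] [Fintype ι]

theorem pr_nonneg' {w : ι → ℝ} (hw : FinProb w) (P : ι → Prop) : 0 ≤ pr w P := by
  classical
  rw [pr_eq_mul]
  refine Finset.sum_nonneg fun i _ => ?_
  have := hw.1 i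
  split_ifs <;> simp [this]

theorem pr_exists {w : ι → ℝ} (P : ι → Prop) (h : 0 < pr w P) : ∃ i, P i := by
  classical
  by_contra hcon
  push Not at hcon
  rw [pr_eq_mul] at h
  simp [hcon] at h

theorem pr_coset (w : ι → ℝ) (r : ι → G) (H : Subgroup G) (x y : G) (h : x⁻¹ * y ∈ H) :
    pr w (fun i => x⁻¹ * r i ∈ H) = pr w (fun i => y⁻¹ * r i ∈ H) := by
  have : (fun i => x⁻¹ * r i ∈ H) = (fun i => y⁻¹ * r i ∈ H) := by
    funext i
    apply propext
    have h1 : x⁻¹ * r i = (x⁻¹ * y) * (y⁻¹ * r i) := by group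
    rw [h1]
    exact H.mul_mem_cancel_left h
  rw [this]

theorem pr_disj {w : ι → ℝ} (hw : FinProb w) (r : ι → G) (H : Subgroup G) (T : Finset G)
    (hT : ∀ t ∈ T, ∀ t' ∈ T, t⁻¹ * t' ∈ H → t = t') :
    ∑ t ∈ T, pr w (fun i => t⁻¹ * r i ∈ H) ≤ 1 := by
  classical
  rw [← hw.2]
  simp only [pr_eq_mul]
  rw [Finset.sum_comm]
  refine Finset.sum_le_sum fun i _ => ?_
  rw [← Finset.mul_sum]
  have h1 : ∑ t ∈ T, (if t⁻¹ * r i ∈ H then (1 : ℝ) else 0) ≤ 1 := by
    rw [Finset.sum_ite, Finset.sum_const_zero, add_zero, Finset.sum_const, nsmul_eq_mul, mul_one]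
    have h2 : (T.filter (fun t => t⁻¹ * r i ∈ H)).card ≤ 1 := by
      rw [Finset.card_le_one]
      intro t ht t' ht'
      rw [Finset.mem_filter] at ht ht'
      refine hT t ht.1 t' ht'.1 ?_
      have h3 : t⁻¹ * t' = (t⁻¹ * r i) * (t'⁻¹ * r i)⁻¹ := by group
      rw [h3]
      exact H.mul_mem ht.2 (H.inv_mem ht'.2)
    exact_mod_cast h2
  calc w i * ∑ t ∈ T, (if t⁻¹ * r i ∈ H then (1 : ℝ) else 0) ≤ w i * 1 :=
        mul_le_mul_of_nonneg_left h1 (hw.1 i)
    _ = w i := mul_one _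

/-- the maximal mass of a coset is attained -/
theorem pr_max (w : ι → ℝ) (r : ι → G) (H : Subgroup G) :
    ∃ x₀ : G, ∀ x : G, pr w (fun i => x⁻¹ * r i ∈ H) ≤ pr w (fun i => x₀⁻¹ * r i ∈ H) := by
  classical
  let S : G → Finset ι := fun x => Finset.univ.filter (fun i => x⁻¹ * r i ∈ H)
  let g : Finset ι → ℝ := fun A => ∑ i, if i ∈ A then w i else 0
  have hg : ∀ x, pr w (fun i => x⁻¹ * r i ∈ H) = g (S x) := by
    intro x
    simp only [pr, g, S, Finset.mem_filter, Finset.mem_univ, true_and]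
  have hne : (Finset.univ.filter (fun A : Finset ι => ∃ x, S x = A)).Nonempty :=
    ⟨S 1, by simp⟩
  obtain ⟨A, hA, hmax⟩ := Finset.exists_max_image _ g hne
  rw [Finset.mem_filter] at hA
  obtain ⟨x₀, hx₀⟩ := hA.2
  refine ⟨x₀, fun x => ?_⟩
  rw [hg, hg, hx₀]
  exact hmax (S x) (by simp)

end Basics

/-- deficits -/
def dfc (n : ℕ) : ℕ → ℕ
  | 0 => 0
  | j + 1 => n * (dfc n j + 1)

theorem dfc_le (n : ℕ) (hn : 1 ≤ n) (j : ℕ) : dfc n j ≤ dfc n (j + 1) := by
  show dfc n j ≤ n * (dfc n j + 1)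
  calc dfc n j ≤ 1 * (dfc n j + 1) := by omega
    _ ≤ n * (dfc n j + 1) := Nat.mul_le_mul_right _ hn

theorem taskS : TaskS := by
  classical
  intro G _ F N ε hε hN
  let K : Type := Option (F ⊕ F)
  let s : K → G := fun k => match k with
    | none => 1
    | some (Sum.inl f) => f.1
    | some (Sum.inr f) => f.1⁻¹
  set n : ℕ := Fintype.card K with hn
  have hn1 : 1 ≤ n := Fintype.card_pos
  have hnR : (0 : ℝ) < n := by exact_mod_cast hn1
  obtain ⟨J₀, hJ₀⟩ := exists_nat_gt (2 * (dfc n N : ℝ) / ε)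
  set J : ℕ := J₀ + 1 with hJ
  have hJpos : (0 : ℝ) < J := by positivity
  have hJN : (dfc n N : ℝ) / J ≤ ε / 2 := by
    have h1 : 2 * (dfc n N : ℝ) / ε < J := by
      rw [hJ]; push_cast; linarith
    rw [div_lt_iff₀ hε] at h1
    rw [div_le_iff₀ hJpos]
    linarith
  have hsΓ : ∀ k, s k ∈ Subgroup.closure (F : Set G) := by
    rintro (_ | f | f)
    · exact Subgroup.one_mem _
    · exact Subgroup.subset_closure f.2
    · exact Subgroup.inv_mem _ (Subgroup.subset_closure f.2)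
  obtain ⟨ι, hι, w, r, hw, hr, hharm⟩ := walk_measure s (Subgroup.closure (F : Set G)) hsΓ J
    (Nat.succ_pos _)
  refine ⟨ι, hι, w, r, hw, hr, ?_⟩
  intro H hH
  set Q : G → ℝ := fun x => pr w (fun i => x⁻¹ * r i ∈ H) with hQ
  obtain ⟨x₁, hx₁⟩ := pr_max w r H
  suffices hM : Q x₁ ≤ ε from fun g => (hx₁ g).trans hM
  by_contra hM
  push Not at hM
  obtain ⟨i₀, hi₀⟩ := pr_exists _ (hε.trans hM)
  set x₀ : G := r i₀ with hx₀def
  have hx₀Γ : x₀ ∈ Subgroup.closure (F : Set G) := hr i₀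
  have hQx : Q x₀ = Q x₁ := (pr_coset w r H x₁ x₀ hi₀).symm
  have hmax : ∀ x, Q x ≤ Q x₀ := fun x => by rw [hQx]; exact hx₁ x
  have hM' : ε < Q x₀ := by rw [hQx]; exact hM
  -- near harmonicity
  have hh : ∀ x, Q x ≤ (1 / (n : ℝ)) * ∑ k, Q ((s k)⁻¹ * x) + 1 / J := by
    intro x
    have h1 := hharm (fun g => x⁻¹ * g ∈ H)
    have h2 : ∀ k, pr w (fun i => x⁻¹ * (s k * r i) ∈ H) = Q ((s k)⁻¹ * x) := by
      intro k
      simp only [hQ]
      congr 1
      funext i
      rw [mul_inv_rev, inv_inv, mul_assoc]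
    simp only [h2] at h1
    exact h1
  have hstep : ∀ (x : G) (d : ℝ), Q x₀ - d ≤ Q x → ∀ k,
      Q x₀ - n * (d + 1 / J) ≤ Q ((s k)⁻¹ * x) := by
    intro x d hd k
    have h1 := hh x
    have h2 : ∑ l, Q ((s l)⁻¹ * x) ≤ Q ((s k)⁻¹ * x) + ((n : ℝ) - 1) * Q x₀ := by
      rw [← Finset.add_sum_erase _ _ (Finset.mem_univ k)]
      have h3 : ∑ l ∈ Finset.univ.erase k, Q ((s l)⁻¹ * x) ≤
          ∑ l ∈ Finset.univ.erase k, Q x₀ := Finset.sum_le_sum fun l _ => hmax _
      rw [Finset.sum_const, Finset.card_erase_of_mem (Finset.mem_univ k), Finset.card_univ,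
        nsmul_eq_mul, ← hn, Nat.cast_sub hn1, Nat.cast_one] at h3
      linarith
    have h4 : (1 / (n : ℝ)) * ∑ l, Q ((s l)⁻¹ * x) ≤
        (1 / (n : ℝ)) * (Q ((s k)⁻¹ * x) + ((n : ℝ) - 1) * Q x₀) :=
      mul_le_mul_of_nonneg_left h2 (by positivity)
    have h5 : Q x₀ - d - 1 / J ≤ (1 / (n : ℝ)) * (Q ((s k)⁻¹ * x) + ((n : ℝ) - 1) * Q x₀) := by
      linarith
    have h6 := mul_le_mul_of_nonneg_left h5 hnR.le
    have h7 : (n : ℝ) * ((1 / (n : ℝ)) * (Q ((s k)⁻¹ * x) + ((n : ℝ) - 1) * Q x₀)) =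
        Q ((s k)⁻¹ * x) + ((n : ℝ) - 1) * Q x₀ := by
      field_simp
    rw [h7] at h6
    linarith
  -- the growing sets of cosets
  have hgrow : ∀ j : ℕ, j ≤ N → ∃ T : Finset G, T.card = j + 1 ∧ x₀ ∈ T ∧
      (∀ t ∈ T, ∀ t' ∈ T, t⁻¹ * t' ∈ H → t = t') ∧
      ∀ t ∈ T, Q x₀ - (dfc n j : ℝ) / J ≤ Q t := by
    intro j
    induction j with
    | zero =>
      intro _
      refine ⟨{x₀}, by simp, by simp, ?_, ?_⟩
      · intro t ht t' ht' _
        rw [Finset.mem_singleton] at ht ht'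
        rw [ht, ht']
      · intro t ht
        rw [Finset.mem_singleton] at ht
        rw [ht]
        simp [dfc]
    | succ j ih =>
      intro hj
      obtain ⟨T, hT1, hT2, hT3, hT4⟩ := ih (by omega)
      have hex : ∃ k, ∃ t ∈ T, ∀ t' ∈ T, t'⁻¹ * ((s k)⁻¹ * t) ∉ H := by
        by_contra hcon
        push Not at hcon
        -- invariance of the union of the cosets
        let C : Set G := {x | ∃ t ∈ T, t⁻¹ * x ∈ H}
        have hC : ∀ k, ∀ x ∈ C, (s k)⁻¹ * x ∈ C := by
          rintro k x ⟨t, ht, htx⟩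
          obtain ⟨t', ht', h1⟩ := hcon k t ht
          refine ⟨t', ht', ?_⟩
          have h2 : t'⁻¹ * ((s k)⁻¹ * x) = (t'⁻¹ * ((s k)⁻¹ * t)) * (t⁻¹ * x) := by group
          rw [h2]
          exact H.mul_mem h1 htx
        have hΓ : ∀ γ ∈ Subgroup.closure (F : Set G), ∀ x ∈ C, γ * x ∈ C ∧ γ⁻¹ * x ∈ C := by
          intro γ hγ
          induction hγ using Subgroup.closure_induction with
          | mem f hf =>
            intro x hx
            refine ⟨?_, ?_⟩
            · have h1 := hC (some (Sum.inr ⟨f, hf⟩)) x hx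
              simpa [s] using h1
            · have h1 := hC (some (Sum.inl ⟨f, hf⟩)) x hx
              simpa [s] using h1
          | one => intro x hx; simpa using hx
          | mul a b _ _ iha ihb =>
            intro x hx
            refine ⟨?_, ?_⟩
            · rw [mul_assoc]
              exact (iha _ (ihb x hx).1).1
            · rw [mul_inv_rev, mul_assoc]
              exact (ihb _ (iha x hx).2).2
          | inv a _ iha =>
            intro x hx
            refine ⟨(iha x hx).2, ?_⟩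
            rw [inv_inv]
            exact (iha x hx).1
        obtain ⟨γ, hγ, hγT⟩ := hH T (by omega)
        have hx₀C : x₀ ∈ C := ⟨x₀, hT2, by simp⟩
        have h1 := (hΓ (γ * x₀⁻¹) (Subgroup.mul_mem _ hγ (Subgroup.inv_mem _ hx₀Γ)) x₀ hx₀C).1
        rw [inv_mul_cancel_right] at h1
        obtain ⟨t, ht, h2⟩ := h1
        exact hγT t ht h2
      obtain ⟨k, t, ht, hkt⟩ := hex
      have hnot : (s k)⁻¹ * t ∉ T := fun h => hkt _ h (by simp)
      refine ⟨insert ((s k)⁻¹ * t) T, ?_, Finset.mem_insert_of_mem hT2, ?_, ?_⟩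
      · rw [Finset.card_insert_of_notMem hnot, hT1]
      · intro a ha b hb hab
        rw [Finset.mem_insert] at ha hb
        rcases ha with ha | ha
        · rcases hb with hb | hb
          · rw [ha, hb]
          · exfalso
            apply hkt b hb
            have h1 := H.inv_mem hab
            rw [ha] at h1
            have h2 : (((s k)⁻¹ * t)⁻¹ * b)⁻¹ = b⁻¹ * ((s k)⁻¹ * t) := by group
            rw [h2] at h1
            exact h1
        · rcases hb with hb | hb
          · exfalso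
            apply hkt a ha
            rw [hb] at hab
            exact hab
          · exact hT3 a ha b hb hab
      · intro y hy
        rw [Finset.mem_insert] at hy
        rcases hy with hy | hy
        · rw [hy]
          have h1 := hstep t _ (hT4 t ht) k
          have h2 : (dfc n (j + 1) : ℝ) / J = n * ((dfc n j : ℝ) / J + 1 / J) := by
            show ((n * (dfc n j + 1) : ℕ) : ℝ) / J = _
            push_cast
            ring
          rw [h2]
          exact h1
        · refine le_trans ?_ (hT4 y hy)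
          have h1 : (dfc n j : ℝ) / J ≤ (dfc n (j + 1) : ℝ) / J := by
            apply div_le_div_of_nonneg_right _ hJpos.le
            exact_mod_cast dfc_le n hn1 j
          linarith
  obtain ⟨T, hT1, -, hT3, hT4⟩ := hgrow N le_rfl
  have h1 := pr_disj hw r H T hT3
  have h2 : ∑ t ∈ T, (ε / 2) ≤ ∑ t ∈ T, pr w (fun i => t⁻¹ * r i ∈ H) := by
    refine Finset.sum_le_sum fun t ht => ?_
    have h3 : Q x₀ - (dfc n N : ℝ) / J ≤ pr w (fun i => t⁻¹ * r i ∈ H) := hT4 t ht
    linarith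
  rw [Finset.sum_const, hT1, nsmul_eq_mul] at h2
  push_cast at h2
  nlinarith

end H44D
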